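import Pool.Agent.helper47.TK.SpecN

/-!
# Project tk (rows gk:), module KE1: the number of ideals of norm `n` is multiplicative
-/

namespace Pool.Agent.TK

open Polynomial NumberField Pool.Agent.FJ Pool.Agent.HC Pool.Agent.SJ
open scoped NumberField Topology ComplexConjugate

noncomputable section

section

variable {R : Type} [CommRing R] {I J : Ideal R} {m n : ℕ}

theorem KE1_top (h : m.Coprime n) : Ideal.span {(m : R)} ⊔ Ideal.span {(n : R)} = ⊤ := by
  have h1 : IsCoprime (m : R) (n : R) := h.isCoprime.intCast.symm.symm |> fun h => by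
    simpa using h
  rw [← Ideal.isCoprime_iff_sup_eq, Ideal.isCoprime_span_singleton_iff]
  exact h1

/-- recombination of an ideal which contains `m n` -/
theorem KE1_mul (h : m.Coprime n) (hI : ((m * n : ℕ) : R) ∈ I) :
    (I ⊔ Ideal.span {(m : R)}) * (I ⊔ Ideal.span {(n : R)}) = I := by
  apply le_antisymm
  · rw [Ideal.sup_mul, Ideal.mul_sup, Ideal.mul_sup]
    refine sup_le (sup_le Ideal.mul_le_left Ideal.mul_le_left) (sup_le Ideal.mul_le_right ?_)
    rw [Ideal.span_singleton_mul_span_singleton, Ideal.span_singleton_le_iff_mem]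
    push_cast at hI
    exact hI
  · calc I = I * ⊤ := (Ideal.mul_top I).symm
      _ = I * Ideal.span {(m : R)} ⊔ I * Ideal.span {(n : R)} := by
        rw [← KE1_top h, Ideal.mul_sup]
      _ ≤ (I ⊔ Ideal.span {(m : R)}) * (I ⊔ Ideal.span {(n : R)}) := by
        refine sup_le ?_ (Ideal.mul_mono le_sup_left le_sup_right)
        rw [mul_comm]
        exact Ideal.mul_mono le_sup_right le_sup_left

/-- the components of a product -/
theorem KE1_comp (h : m.Coprime n) (hI : (m : R) ∈ I) (hJ : (n : R) ∈ J) :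
    I * J ⊔ Ideal.span {(m : R)} = I := by
  apply le_antisymm
  · refine sup_le Ideal.mul_le_left ?_
    rw [Ideal.span_singleton_le_iff_mem]
    exact hI
  · calc I = I * ⊤ := (Ideal.mul_top I).symm
      _ = I * (J ⊔ Ideal.span {(m : R)}) := by
        congr 1
        rw [eq_comm, ← top_le_iff, ← KE1_top (R := R) h, sup_comm]
        refine sup_le_sup_right ?_ _
        rw [Ideal.span_singleton_le_iff_mem]
        exact hJ
      _ ≤ I * J ⊔ Ideal.span {(m : R)} := by
        rw [Ideal.mul_sup]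
        exact sup_le_sup_left Ideal.mul_le_right _

end

variable {L : Type} [Field L] [NumberField L]

theorem KE1_norm_span (m : ℕ) : Ideal.absNorm (Ideal.span {(m : 𝓞 L)}) =
    m ^ Module.finrank ℤ (𝓞 L) := by
  rw [Ideal.absNorm_span_singleton, Algebra.norm_natCast, Int.natAbs_pow, Int.natAbs_natCast]

theorem KE1_dvd {I : Ideal (𝓞 L)} {m n : ℕ} (h : m.Coprime n) (hI : Ideal.absNorm I = m * n) :
    Ideal.absNorm (I ⊔ Ideal.span {(m : 𝓞 L)}) ∣ m := by
  have h1 : Ideal.absNorm (I ⊔ Ideal.span {(m : 𝓞 L)}) ∣ m * n := by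
    rw [← hI]
    exact Ideal.absNorm_dvd_absNorm_of_le le_sup_left
  have h2 : Ideal.absNorm (I ⊔ Ideal.span {(m : 𝓞 L)}) ∣ m ^ Module.finrank ℤ (𝓞 L) := by
    rw [← KE1_norm_span]
    exact Ideal.absNorm_dvd_absNorm_of_le le_sup_right
  have h3 : (Ideal.absNorm (I ⊔ Ideal.span {(m : 𝓞 L)})).Coprime n :=
    Nat.Coprime.coprime_dvd_left h2 (Nat.Coprime.pow_left _ h)
  exact h3.dvd_of_dvd_mul_right h1

theorem KE1_norm {I : Ideal (𝓞 L)} {m n : ℕ} (hm : 0 < m) (hn : 0 < n) (h : m.Coprime n)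
    (hI : Ideal.absNorm I = m * n) :
    Ideal.absNorm (I ⊔ Ideal.span {(m : 𝓞 L)}) = m ∧
      Ideal.absNorm (I ⊔ Ideal.span {(n : 𝓞 L)}) = n := by
  have hmem : ((m * n : ℕ) : 𝓞 L) ∈ I := by
    rw [← hI]
    exact Ideal.absNorm_mem I
  have h1 := KE1_dvd h hI
  have h2 := KE1_dvd h.symm (by rw [hI, mul_comm])
  have h3 : Ideal.absNorm (I ⊔ Ideal.span {(m : 𝓞 L)}) *
      Ideal.absNorm (I ⊔ Ideal.span {(n : 𝓞 L)}) = m * n := by
    rw [← map_mul, KE1_mul h hmem, hI]
  have h4 := Nat.le_of_dvd hm h1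
  have h5 := Nat.le_of_dvd hn h2
  constructor
  · by_contra hne
    have h6 : Ideal.absNorm (I ⊔ Ideal.span {(m : 𝓞 L)}) < m := lt_of_le_of_ne h4 hne
    have h7 := Nat.mul_lt_mul_of_lt_of_le h6 h5 hn
    omega
  · by_contra hne
    have h6 : Ideal.absNorm (I ⊔ Ideal.span {(n : 𝓞 L)}) < n := lt_of_le_of_ne h5 hne
    have h7 := Nat.mul_lt_mul_of_le_of_lt h4 h6 hm
    omega

/-- the bijection -/
def KE1_equiv {m n : ℕ} (hm : 0 < m) (hn : 0 < n) (h : m.Coprime n) :
    {I : Ideal (𝓞 L) // Ideal.absNorm I = m * n} ≃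
      {I : Ideal (𝓞 L) // Ideal.absNorm I = m} × {I : Ideal (𝓞 L) // Ideal.absNorm I = n} where
  toFun I := (⟨I.1 ⊔ Ideal.span {(m : 𝓞 L)}, (KE1_norm hm hn h I.2).1⟩,
    ⟨I.1 ⊔ Ideal.span {(n : 𝓞 L)}, (KE1_norm hm hn h I.2).2⟩)
  invFun q := ⟨q.1.1 * q.2.1, by rw [map_mul, q.1.2, q.2.2]⟩
  left_inv I := by
    apply Subtype.ext
    refine KE1_mul h ?_
    have := Ideal.absNorm_mem I.1
    rw [I.2] at this
    exact this
  right_inv q := by
    have h1 : (m : 𝓞 L) ∈ q.1.1 := by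
      have := Ideal.absNorm_mem q.1.1
      rw [q.1.2] at this
      exact this
    have h2 : (n : 𝓞 L) ∈ q.2.1 := by
      have := Ideal.absNorm_mem q.2.1
      rw [q.2.2] at this
      exact this
    refine Prod.ext (Subtype.ext ?_) (Subtype.ext ?_)
    · exact KE1_comp h h1 h2
    · have := KE1_comp h.symm h2 h1
      rw [mul_comm] at this
      exact this

theorem KE1 : KE1_stmt := by
  intro L _ _
  constructor
  · unfold nid
    have : Unique {I : Ideal (𝓞 L) // Ideal.absNorm I = 1} :=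
      { default := ⟨⊤, Ideal.absNorm_eq_one_iff.2 rfl⟩
        uniq := fun I => Subtype.ext (Ideal.absNorm_eq_one_iff.1 I.2) }
    exact Nat.card_unique
  · intro m n hm hn h
    unfold nid
    rw [← Nat.card_prod]
    exact Nat.card_congr (KE1_equiv hm hn h)

end

end Pool.Agent.TK
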