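import Pool.Agent.helper47.TK.SpecN

/-!
# Project tk (rows gk:), module KE4: the logarithm of an Euler product
-/

namespace Pool.Agent.TK

open Polynomial NumberField Pool.Agent.FJ Pool.Agent.HC Pool.Agent.SJ
open scoped NumberField Topology ComplexConjugate

noncomputable section

theorem KE4_summable (d : ℕ) : Summable (fun e : ℕ => ((e : ℝ) + 3) ^ d * (1 / 2) ^ e) := by
  have h : Summable (fun n : ℕ => (n : ℝ) ^ d * (1 / 2 : ℝ) ^ n) :=
    summable_pow_mul_geometric_of_norm_lt_one d (by norm_num)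
  have h2 := ((summable_nat_add_iff 3).2 h).mul_left 8
  refine h2.congr ?_
  intro e
  push_cast
  rw [pow_add]
  ring

/-- the local estimate -/
theorem KE4_local (d : ℕ) (K : ℝ) (hK : K = ∑' e : ℕ, ((e : ℝ) + 3) ^ d * (1 / 2) ^ e)
    (a : ℕ → ℕ) (h0 : a 0 = 1) (ha : ∀ e, a e ≤ (e + 1) ^ d) (q : ℝ) (hq0 : 0 < q)
    (hq : q ≤ 1 / 2) :
    1 ≤ ∑' e : ℕ, (a e : ℝ) * q ^ e ∧
    |Real.log (∑' e : ℕ, (a e : ℝ) * q ^ e)| ≤ K * q ∧
    |Real.log (∑' e : ℕ, (a e : ℝ) * q ^ e) - a 1 * q| ≤ (K ^ 2 + K) * q ^ 2 := by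
  have hS := KE4_summable d
  have hK0 : 0 ≤ K := by
    rw [hK]
    exact tsum_nonneg fun e => by positivity
  have haR : ∀ e, (a e : ℝ) ≤ ((e : ℝ) + 1) ^ d := fun e => by exact_mod_cast ha e
  have hqe : ∀ e : ℕ, q ^ e ≤ (1 / 2) ^ e := fun e => pow_le_pow_left₀ hq0.le hq e
  -- the three series
  have hf : Summable (fun e : ℕ => (a e : ℝ) * q ^ e) := by
    refine Summable.of_nonneg_of_le (fun e => by positivity) ?_ hS
    intro e
    refine mul_le_mul ((haR e).trans ?_) (hqe e) (by positivity) (by positivity)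
    exact pow_le_pow_left₀ (by positivity) (by linarith) d
  have hf1 : Summable (fun e : ℕ => (a (e + 1) : ℝ) * q ^ (e + 1)) :=
    (summable_nat_add_iff 1).2 hf
  have hf2 : Summable (fun e : ℕ => (a (e + 2) : ℝ) * q ^ (e + 2)) :=
    (summable_nat_add_iff 2).2 hf
  obtain ⟨x, hx⟩ : ∃ x, x = ∑' e : ℕ, (a (e + 1) : ℝ) * q ^ (e + 1) := ⟨_, rfl⟩
  obtain ⟨y, hy⟩ : ∃ y, y = ∑' e : ℕ, (a (e + 2) : ℝ) * q ^ (e + 2) := ⟨_, rfl⟩
  have e1 : ∑' e : ℕ, (a e : ℝ) * q ^ e = 1 + x := by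
    rw [hf.tsum_eq_zero_add, hx, h0]
    norm_num
  have e2 : x = a 1 * q + y := by
    rw [hx, hf1.tsum_eq_zero_add, hy]
    norm_num
  have hx0 : 0 ≤ x := by
    rw [hx]
    exact tsum_nonneg fun e => by positivity
  have hy0 : 0 ≤ y := by
    rw [hy]
    exact tsum_nonneg fun e => by positivity
  have hxK : x ≤ K * q := by
    rw [hx, hK, mul_comm _ q, ← tsum_mul_left]
    refine hf1.tsum_le_tsum ?_ (hS.mul_left q)
    intro e
    have h1 : (a (e + 1) : ℝ) ≤ ((e : ℝ) + 3) ^ d := by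
      refine (haR (e + 1)).trans ?_
      refine pow_le_pow_left₀ (by positivity) ?_ d
      push_cast
      linarith
    calc (a (e + 1) : ℝ) * q ^ (e + 1) = q * ((a (e + 1) : ℝ) * q ^ e) := by ring
      _ ≤ q * (((e : ℝ) + 3) ^ d * (1 / 2) ^ e) :=
        mul_le_mul_of_nonneg_left (mul_le_mul h1 (hqe e) (by positivity) (by positivity)) hq0.le
  have hyK : y ≤ K * q ^ 2 := by
    rw [hy, hK, mul_comm _ (q ^ 2), ← tsum_mul_left]
    refine hf2.tsum_le_tsum ?_ (hS.mul_left (q ^ 2))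
    intro e
    have h1 : (a (e + 2) : ℝ) ≤ ((e : ℝ) + 3) ^ d := by
      refine (haR (e + 2)).trans ?_
      refine pow_le_pow_left₀ (by positivity) ?_ d
      push_cast
      linarith
    calc (a (e + 2) : ℝ) * q ^ (e + 2) = q ^ 2 * ((a (e + 2) : ℝ) * q ^ e) := by ring
      _ ≤ q ^ 2 * (((e : ℝ) + 3) ^ d * (1 / 2) ^ e) :=
        mul_le_mul_of_nonneg_left (mul_le_mul h1 (hqe e) (by positivity) (by positivity))
          (by positivity)
  have hl1 : Real.log (1 + x) ≤ x := by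
    have := Real.log_le_sub_one_of_pos (show 0 < 1 + x by linarith)
    linarith
  have hl0 : 0 ≤ Real.log (1 + x) := Real.log_nonneg (by linarith)
  have hl2 : x - x ^ 2 ≤ Real.log (1 + x) := by
    have h1 := Real.one_sub_inv_le_log_of_pos (show 0 < 1 + x by linarith)
    have h2 : x - x ^ 2 ≤ 1 - (1 + x)⁻¹ := by
      have h3 : 1 - (1 + x)⁻¹ - (x - x ^ 2) = x ^ 3 / (1 + x) := by
        field_simp
        ring
      have h4 : 0 ≤ x ^ 3 / (1 + x) := by positivity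
      linarith
    linarith
  rw [e1]
  refine ⟨by linarith, ?_, ?_⟩
  · rw [abs_of_nonneg hl0]
    linarith
  · have hx2 : x ^ 2 ≤ K ^ 2 * q ^ 2 := by
      rw [← mul_pow]
      exact pow_le_pow_left₀ hx0 hxK 2
    rw [abs_le]
    constructor
    · have : 0 ≤ K * q ^ 2 := by positivity
      nlinarith
    · have : 0 ≤ K ^ 2 * q ^ 2 := by positivity
      nlinarith

theorem KE4 : KE4_stmt := by
  intro d
  obtain ⟨K, hK⟩ : ∃ K, K = ∑' e : ℕ, ((e : ℝ) + 3) ^ d * (1 / 2) ^ e := ⟨_, rfl⟩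
  have hK0 : 0 ≤ K := by
    rw [hK]
    exact tsum_nonneg fun e => by positivity
  refine ⟨(K ^ 2 + K) * ∑' p : Nat.Primes, ((p : ℕ) : ℝ) ^ (-2 : ℝ), ?_⟩
  intro a h0 ha s hs
  have hp2 : ∀ p : Nat.Primes, (2 : ℝ) ≤ ((p : ℕ) : ℝ) := fun p => by
    exact_mod_cast p.2.two_le
  have hq0 : ∀ p : Nat.Primes, 0 < ((p : ℕ) : ℝ) ^ (-s) := fun p =>
    Real.rpow_pos_of_pos (by linarith [hp2 p]) _
  have hq : ∀ p : Nat.Primes, ((p : ℕ) : ℝ) ^ (-s) ≤ 1 / 2 := by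
    intro p
    have h1 : ((p : ℕ) : ℝ) ^ (-s) ≤ ((p : ℕ) : ℝ) ^ (-1 : ℝ) :=
      Real.rpow_le_rpow_of_exponent_le (by linarith [hp2 p]) (by linarith)
    rw [Real.rpow_neg_one] at h1
    refine h1.trans ?_
    rw [one_div]
    exact inv_anti₀ (by norm_num) (hp2 p)
  have hloc := fun p : Nat.Primes => KE4_local d K hK (a p) (h0 p) (ha p) _ (hq0 p) (hq p)
  have hsum : Summable (fun p : Nat.Primes => ((p : ℕ) : ℝ) ^ (-s)) :=
    Nat.Primes.summable_rpow.2 (by linarith)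
  have hsum2 : Summable (fun p : Nat.Primes => ((p : ℕ) : ℝ) ^ (-2 : ℝ)) :=
    Nat.Primes.summable_rpow.2 (by norm_num)
  have hA : Summable fun p : Nat.Primes => (a p 1 : ℝ) * ((p : ℕ) : ℝ) ^ (-s) := by
    refine Summable.of_nonneg_of_le (fun p => mul_nonneg (Nat.cast_nonneg _) (hq0 p).le) ?_
      (hsum.mul_left ((2 : ℝ) ^ d))
    intro p
    refine mul_le_mul_of_nonneg_right ?_ (hq0 p).le
    have := ha p 1
    have h2 : (a p 1 : ℝ) ≤ (((1 + 1) ^ d : ℕ) : ℝ) := by exact_mod_cast this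
    push_cast at h2
    exact h2
  have hB : Summable fun p : Nat.Primes =>
      Real.log (∑' e : ℕ, (a p e : ℝ) * ((((p : ℕ) : ℝ) ^ (-s)) ^ e)) :=
    Summable.of_norm_bounded (hsum.mul_left K) fun p => (hloc p).2.1
  refine ⟨fun p => (hloc p).1, hA, hB, ?_⟩
  rw [← hB.tsum_sub hA]
  have hC : ∀ p : Nat.Primes, ‖Real.log (∑' e : ℕ, (a p e : ℝ) * ((((p : ℕ) : ℝ) ^ (-s)) ^ e)) -
      (a p 1 : ℝ) * ((p : ℕ) : ℝ) ^ (-s)‖ ≤ (K ^ 2 + K) * ((p : ℕ) : ℝ) ^ (-2 : ℝ) := by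
    intro p
    refine (hloc p).2.2.trans ?_
    refine mul_le_mul_of_nonneg_left ?_ (by positivity)
    rw [← Real.rpow_natCast, ← Real.rpow_mul (by positivity)]
    refine Real.rpow_le_rpow_of_exponent_le (by linarith [hp2 p]) ?_
    push_cast
    linarith
  have hD := tsum_of_norm_bounded (hsum2.mul_left (K ^ 2 + K)).hasSum hC
  rw [tsum_mul_left] at hD
  exact hD

end

end Pool.Agent.TK
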